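import Mathlib

set_option autoImplicit false
open Finset

/-!
Definitions: finite simplicial complexes, shellable and vertex-decomposable complexes, and the
complex obtained by stacking all facets.
-/

namespace Pool.Agent.V11201.ST

variable {V : Type} [DecidableEq V]

/-- A finite simplicial complex, given by the family of its faces (with the empty face). -/
def IsComplex (K : Finset (Finset V)) : Prop :=
  ∅ ∈ K ∧ ∀ s ∈ K, ∀ t : Finset V, t ⊆ s → t ∈ K

/-- The facets are the faces that are maximal under inclusion. -/
def IsFacet (K : Finset (Finset V)) (F : Finset V) : Prop :=
  F ∈ K ∧ ∀ G ∈ K, F ⊆ G → G = F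

/-- A complex is pure if all its facets have the same dimension. -/
def IsPure (K : Finset (Finset V)) : Prop :=
  ∀ F G : Finset V, IsFacet K F → IsFacet K G → F.card = G.card

/-- The link of a vertex. -/
def link (K : Finset (Finset V)) (v : V) : Finset (Finset V) :=
  K.filter (fun s => v ∉ s ∧ insert v s ∈ K)

/-- The deletion of a vertex: all faces not containing it. -/
def deletion (K : Finset (Finset V)) (v : V) : Finset (Finset V) :=
  K.filter (fun s => v ∉ s)

/-- Vertex-decomposable complexes (Provan and Billera): simplices (the complex of all subsets of
a finite set, which may be empty), and the pure complexes with a vertex `v` whose link and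
deletion are vertex-decomposable and such that no facet of the link is a facet of the deletion. -/
inductive VertexDecomposable : Finset (Finset V) → Prop
  | simplex (s : Finset V) : VertexDecomposable s.powerset
  | shed (K : Finset (Finset V)) (v : V) : IsPure K → {v} ∈ K →
      VertexDecomposable (link K v) → VertexDecomposable (deletion K v) →
      (∀ F : Finset V, IsFacet (link K v) F → ¬ IsFacet (deletion K v) F) →
      VertexDecomposable K

/-- The intersection of the simplex with vertex set `F` with the union of the simplices whose
vertex sets are the members of the list `l`. -/
def meet (l : List (Finset V)) (F : Finset V) : Finset (Finset V) :=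
  F.powerset.filter (fun G => ∃ E ∈ l, G ⊆ E)

/-- A pure complex is shellable if its facets can be listed, each exactly once, such that each
facet `F` but the first meets the union of the facets before it (these form the list `l1`) in a
complex that is pure of dimension one less than the dimension of `F`. -/
def Shellable (K : Finset (Finset V)) : Prop :=
  IsPure K ∧ ∃ l : List (Finset V), l.Nodup ∧ (∀ F : Finset V, F ∈ l ↔ IsFacet K F) ∧
    ∀ (l1 : List (Finset V)) (F : Finset V) (l2 : List (Finset V)), l = l1 ++ F :: l2 →
      l1 ≠ [] → ∀ G : Finset V, IsFacet (meet l1 F) G → G.card + 1 = F.card

instance (K : Finset (Finset V)) : DecidablePred (IsFacet K) := fun F =>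
  inferInstanceAs (Decidable (F ∈ K ∧ ∀ G ∈ K, F ⊆ G → G = F))

/-- The complex obtained from `K` by stacking all its facets, where `w F` is the new vertex for
the facet `F`: the facets are removed, and for each facet `F` the faces `insert (w F) G` with `G`
a proper face of `F` are added. -/
def stackAll (K : Finset (Finset V)) (w : Finset V → V) : Finset (Finset V) :=
  K.filter (fun H => ¬ IsFacet K H) ∪
    (K.filter (fun F => IsFacet K F)).biUnion (fun F => F.ssubsets.image (insert (w F)))

end Pool.Agent.V11201.ST
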