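import Pool.Agent.V11201.ST.Def

set_option autoImplicit false
set_option linter.unusedSectionVars false
open Finset

namespace Pool.Agent.V11201.ST

variable {V : Type} [DecidableEq V]

/-- stacking the members of a family of facets -/
def stk (Y A : Finset (Finset V)) (w : Finset V → V) : Finset (Finset V) :=
  (Y \ A) ∪ A.biUnion (fun F => F.ssubsets.image (insert (w F)))

theorem mem_stk {Y A : Finset (Finset V)} {w : Finset V → V} {H : Finset V} :
    H ∈ stk Y A w ↔ (H ∈ Y ∧ H ∉ A) ∨ ∃ F ∈ A, ∃ G, G ⊂ F ∧ H = insert (w F) G := by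
  unfold stk
  rw [mem_union, mem_sdiff, mem_biUnion]
  constructor
  · rintro (h | ⟨F, hF, h⟩)
    · exact Or.inl h
    · obtain ⟨G, hG, rfl⟩ := mem_image.1 h
      exact Or.inr ⟨F, hF, G, mem_ssubsets.1 hG, rfl⟩
  · rintro (h | ⟨F, hF, G, hG, rfl⟩)
    · exact Or.inl h
    · exact Or.inr ⟨F, hF, mem_image.2 ⟨G, mem_ssubsets.2 hG, rfl⟩⟩

/-- every face lies in a facet -/
theorem exists_facet {K : Finset (Finset V)} {s : Finset V} (hs : s ∈ K) :
    ∃ F, IsFacet K F ∧ s ⊆ F := by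
  obtain ⟨F, hF, hmax⟩ := exists_max_image (K.filter (fun t => s ⊆ t)) card
    ⟨s, mem_filter.2 ⟨hs, Subset.refl _⟩⟩
  rw [mem_filter] at hF
  refine ⟨F, ⟨hF.1, ?_⟩, hF.2⟩
  intro G hG hFG
  have h1 := hmax G (mem_filter.2 ⟨hG, hF.2.trans hFG⟩)
  exact (eq_of_subset_of_card_le hFG h1).symm

theorem mem_link {K : Finset (Finset V)} {v : V} {s : Finset V} (hK : IsComplex K) :
    s ∈ link K v ↔ v ∉ s ∧ insert v s ∈ K := by
  rw [link, mem_filter]
  exact ⟨fun h => h.2, fun h => ⟨hK.2 _ h.2 _ (subset_insert _ _), h⟩⟩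

theorem mem_deletion {K : Finset (Finset V)} {v : V} {s : Finset V} :
    s ∈ deletion K v ↔ s ∈ K ∧ v ∉ s := by
  rw [deletion, mem_filter]

theorem link_complex {K : Finset (Finset V)} (hK : IsComplex K) {v : V} (hv : {v} ∈ K) :
    IsComplex (link K v) := by
  constructor
  · rw [mem_link hK]
    exact ⟨notMem_empty _, hv⟩
  · intro s hs t ht
    rw [mem_link hK] at hs ⊢
    exact ⟨fun h => hs.1 (ht h), hK.2 _ hs.2 _ (insert_subset_insert _ ht)⟩

/-- the condition of a shelling in terms of faces -/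
def ShC (l1 : List (Finset V)) (F : Finset V) : Prop :=
  ∀ G, G ⊆ F → (∃ E ∈ l1, G ⊆ E) → ∃ R, G ⊆ R ∧ R ⊆ F ∧ R.card + 1 = F.card ∧ ∃ E ∈ l1, R ⊆ E

theorem shC_of {l1 : List (Finset V)} {F : Finset V}
    (h : ∀ G, IsFacet (meet l1 F) G → G.card + 1 = F.card) : ShC l1 F := by
  intro G hG hE
  obtain ⟨R, hR, hGR⟩ := exists_facet (K := meet l1 F) (s := G)
    (by rw [meet, mem_filter, mem_powerset]; exact ⟨hG, hE⟩)
  have h1 := hR.1
  rw [meet, mem_filter, mem_powerset] at h1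
  exact ⟨R, hGR, h1.1, h R hR, h1.2⟩

theorem of_shC {l1 : List (Finset V)} {F : Finset V} (h : ShC l1 F)
    (hF : ∀ E ∈ l1, ¬ F ⊆ E) : ∀ G, IsFacet (meet l1 F) G → G.card + 1 = F.card := by
  rintro G ⟨hG, hmax⟩
  rw [meet, mem_filter, mem_powerset] at hG
  obtain ⟨R, h1, h2, h3, h4⟩ := h G hG.1 hG.2
  have h5 := hmax R (by rw [meet, mem_filter, mem_powerset]; exact ⟨h2, h4⟩) h1
  rw [← h5, h3]

/-- a shelling in terms of faces -/
theorem shellable_iff {K : Finset (Finset V)} : Shellable K ↔ IsPure K ∧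
    ∃ l : List (Finset V), l.Nodup ∧ (∀ F, F ∈ l ↔ IsFacet K F) ∧
      ∀ l1 F l2, l = l1 ++ F :: l2 → l1 ≠ [] → ShC l1 F := by
  constructor
  · rintro ⟨hp, l, hl, hm, h⟩
    exact ⟨hp, l, hl, hm, fun l1 F l2 h1 h2 => shC_of (h l1 F l2 h1 h2)⟩
  · rintro ⟨hp, l, hl, hm, h⟩
    refine ⟨hp, l, hl, hm, fun l1 F l2 h1 h2 => of_shC (h l1 F l2 h1 h2) ?_⟩
    intro E hE hFE
    have hF : IsFacet K F := (hm F).1 (by rw [h1]; simp)
    have hE' : IsFacet K E := (hm E).1 (by rw [h1]; exact List.mem_append_left _ hE)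
    have h3 := hF.2 E hE'.1 hFE
    rw [h1, List.nodup_append] at hl
    exact hl.2.2 E hE F (by simp) h3

/-- a complex with one facet is shellable -/
theorem shellable_single {K : Finset (Finset V)} {F : Finset V} (hF : IsFacet K F)
    (h : ∀ G, IsFacet K G → G = F) : Shellable K := by
  rw [shellable_iff]
  refine ⟨?_, [F], by simp, ?_, ?_⟩
  · intro A B hA hB
    rw [h A hA, h B hB]
  · intro G
    rw [List.mem_singleton]
    exact ⟨fun hG => hG ▸ hF, fun hG => h G hG⟩
  · intro l1 G l2 h1 h2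
    exfalso
    cases l1 with
    | nil => exact h2 rfl
    | cons a t =>
      rw [List.cons_append, List.cons.injEq] at h1
      exact absurd h1.2.symm (by simp)

section
variable {Y A : Finset (Finset V)} {w : Finset V → V}

/-- the standing assumptions -/
structure Good (Y A : Finset (Finset V)) (w : Finset V → V) : Prop where
  cx : IsComplex Y
  fac : ∀ F ∈ A, IsFacet Y F
  ne : ∀ F ∈ A, F.Nonempty
  inj : ∀ F ∈ A, ∀ G ∈ A, w F = w G → F = G
  new : ∀ F ∈ A, ∀ G ∈ Y, w F ∉ G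

theorem Good.sub (h : Good Y A w) {F G : Finset V} (hF : F ∈ A) (hG : G ⊂ F) : G ∈ Y :=
  h.cx.2 _ (h.fac F hF).1 _ hG.1

theorem Good.newsub (h : Good Y A w) {E F G : Finset V} (hE : E ∈ A) (hF : F ∈ A) (hG : G ⊂ F) :
    w E ∉ G := h.new E hE G (h.sub hF hG)

/-- a face of the stacked complex with no new vertex -/
theorem Good.old (h : Good Y A w) {H : Finset V} (hH : H ∈ stk Y A w) (hn : ∀ F ∈ A, w F ∉ H) :
    H ∈ Y ∧ H ∉ A := by
  rcases mem_stk.1 hH with h1 | ⟨F, hF, G, hG, rfl⟩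
  · exact h1
  · exact absurd (mem_insert_self _ _) (hn F hF)

/-- a face of the stacked complex with a new vertex -/
theorem Good.newf (h : Good Y A w) {H F : Finset V} (hH : H ∈ stk Y A w) (hF : F ∈ A)
    (hw : w F ∈ H) : ∃ G, G ⊂ F ∧ H = insert (w F) G := by
  rcases mem_stk.1 hH with h1 | ⟨F', hF', G, hG, rfl⟩
  · exact absurd hw (h.new F hF H h1.1)
  · rcases mem_insert.1 hw with h2 | h2
    · have := h.inj F hF F' hF' h2
      subst this
      exact ⟨G, hG, rfl⟩
    · exact absurd h2 (h.newsub hF hF' hG)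

theorem Good.two (h : Good Y A w) {H F E : Finset V} (hH : H ∈ stk Y A w) (hF : F ∈ A)
    (hE : E ∈ A) (hw : w F ∈ H) (hw' : w E ∈ H) : E = F := by
  obtain ⟨G, hG, rfl⟩ := h.newf hH hF hw
  rcases mem_insert.1 hw' with h2 | h2
  · exact h.inj E hE F hF h2
  · exact absurd h2 (h.newsub hE hF hG)

theorem Good.stk_cx (h : Good Y A w) : IsComplex (stk Y A w) := by
  constructor
  · rw [mem_stk]
    refine Or.inl ⟨h.cx.1, fun h1 => ?_⟩
    exact (h.ne _ h1).ne_empty rfl
  · intro s hs t ht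
    rcases mem_stk.1 hs with h1 | ⟨F, hF, G, hG, rfl⟩
    · rw [mem_stk]
      refine Or.inl ⟨h.cx.2 _ h1.1 _ ht, fun h2 => ?_⟩
      exact h1.2 ((h.fac t h2).2 s h1.1 ht ▸ h2)
    · by_cases hw : w F ∈ t
      · rw [mem_stk]
        refine Or.inr ⟨F, hF, t.erase (w F), ?_, (insert_erase hw).symm⟩
        refine lt_of_le_of_lt ?_ hG
        intro x hx
        rw [mem_erase] at hx
        rcases mem_insert.1 (ht hx.2) with h3 | h3
        · exact absurd h3 hx.1
        · exact h3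
      · have h3 : t ⊆ G := by
          intro x hx
          rcases mem_insert.1 (ht hx) with h4 | h4
          · exact absurd (h4 ▸ hx) hw
          · exact h4
        have h4 : t ⊂ F := lt_of_le_of_lt h3 hG
        rw [mem_stk]
        refine Or.inl ⟨h.sub hF h4, fun h5 => ?_⟩
        have := (h.fac t h5).2 F (h.fac F hF).1 h4.1
        rw [this] at h4
        exact absurd h4 (ssubset_irrefl _)

/-- the facets that are not stacked -/
theorem Good.fac_old (h : Good Y A w) {F : Finset V} (hF : IsFacet Y F) (hA : F ∉ A) :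
    IsFacet (stk Y A w) F := by
  refine ⟨mem_stk.2 (Or.inl ⟨hF.1, hA⟩), ?_⟩
  intro H hH hFH
  rcases mem_stk.1 hH with h1 | ⟨E, hE, G, hG, rfl⟩
  · exact hF.2 H h1.1 hFH
  · exfalso
    have h2 : F ⊆ G := by
      intro x hx
      rcases mem_insert.1 (hFH hx) with h4 | h4
      · exact absurd (h4 ▸ hx) (h.new E hE F hF.1)
      · exact h4
    have h3 : F ⊂ E := lt_of_le_of_lt h2 hG
    have := hF.2 E (h.fac E hE).1 h3.1
    rw [this] at h3
    exact absurd h3 (ssubset_irrefl _)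

/-- the new facets -/
theorem Good.fac_new (h : Good Y A w) {F : Finset V} (hF : F ∈ A) {u : V} (hu : u ∈ F) :
    IsFacet (stk Y A w) (insert (w F) (F.erase u)) := by
  refine ⟨mem_stk.2 (Or.inr ⟨F, hF, _, erase_ssubset hu, rfl⟩), ?_⟩
  intro H hH hFH
  obtain ⟨G, hG, rfl⟩ := h.newf hH hF (hFH (mem_insert_self _ _))
  have h1 : w F ∉ F := h.new F hF F (h.fac F hF).1
  have h2 : F.erase u ⊆ G := by
    intro x hx
    rcases mem_insert.1 (hFH (mem_insert_of_mem hx)) with h4 | h4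
    · exact absurd (h4 ▸ mem_of_mem_erase hx) h1
    · exact h4
  congr 1
  apply Subset.antisymm _ h2
  intro x hx
  rw [mem_erase]
  refine ⟨?_, hG.1 hx⟩
  rintro rfl
  apply hG.2
  intro y hy
  by_cases hyx : y = x
  · rw [hyx]; exact hx
  · exact h2 (mem_erase.2 ⟨hyx, hy⟩)

theorem Good.card_new (h : Good Y A w) {F : Finset V} (hF : F ∈ A) {u : V} (hu : u ∈ F) :
    (insert (w F) (F.erase u)).card = F.card := by
  have h1 : w F ∉ F := h.new F hF F (h.fac F hF).1
  rw [card_insert_of_notMem (fun h2 => h1 (mem_of_mem_erase h2)), card_erase_of_mem hu]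
  have := card_pos.2 ⟨u, hu⟩
  omega

theorem Good.rep (h : Good Y A w) {F : Finset V} (hF : IsFacet Y F) :
    ∃ F', IsFacet (stk Y A w) F' ∧ F'.card = F.card := by
  by_cases hA : F ∈ A
  · obtain ⟨u, hu⟩ := h.ne F hA
    exact ⟨_, h.fac_new hA hu, h.card_new hA hu⟩
  · exact ⟨F, h.fac_old hF hA, rfl⟩

theorem Good.pure (h : Good Y A w) (hp : IsPure (stk Y A w)) : IsPure Y := by
  intro F G hF hG
  obtain ⟨F', h1, h2⟩ := h.rep hF
  obtain ⟨G', h3, h4⟩ := h.rep hG
  rw [← h2, ← h4]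
  exact hp F' G' h1 h3

/-- the case of a simplex -/
theorem Good.simplex (h : Good Y A w) {s : Finset V} (hs : s.powerset = stk Y A w) :
    Shellable Y := by
  have hin : ∀ H, H ∈ stk Y A w ↔ H ⊆ s := fun H => by rw [← hs, mem_powerset]
  have key : ∀ E F, IsFacet Y E → IsFacet Y F → E ∉ A → F ∉ A → E = F := by
    intro E F hE hF hEA hFA
    have h1 : E ⊆ s := (hin E).1 (mem_stk.2 (Or.inl ⟨hE.1, hEA⟩))
    have h2 : F ⊆ s := (hin F).1 (mem_stk.2 (Or.inl ⟨hF.1, hFA⟩))
    have h3 : E ∪ F ∈ stk Y A w := (hin _).2 (union_subset h1 h2)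
    have h4 := (h.old h3 (fun G hG hw => by
      rcases mem_union.1 hw with hw | hw
      · exact h.new G hG E hE.1 hw
      · exact h.new G hG F hF.1 hw)).1
    rw [← hE.2 _ h4 subset_union_left, ← hF.2 _ h4 subset_union_right]
    simp
  have hw : ∀ F ∈ A, w F ∈ s := by
    intro F hF
    have h1 : insert (w F) ∅ ∈ stk Y A w :=
      mem_stk.2 (Or.inr ⟨F, hF, ∅, (h.ne F hF).empty_ssubset, rfl⟩)
    exact (hin _).1 h1 (mem_insert_self _ _)
  have key2 : ∀ E F, IsFacet Y E → E ∉ A → F ∈ A → False := by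
    intro E F hE hEA hF
    have h1 : E ⊆ s := (hin E).1 (mem_stk.2 (Or.inl ⟨hE.1, hEA⟩))
    have h2 : insert (w F) E ∈ stk Y A w := (hin _).2 (insert_subset (hw F hF) h1)
    obtain ⟨G, hG, h3⟩ := h.newf h2 hF (mem_insert_self _ _)
    have h4 : E = G := by
      have e1 := h.new F hF E hE.1
      have e2 := h.newsub hF hF hG
      rw [← erase_insert e1, ← erase_insert e2, h3]
    rw [← h4] at hG
    have := hE.2 F (h.fac F hF).1 hG.1
    rw [this] at hG
    exact absurd hG (ssubset_irrefl _)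
  have key3 : ∀ E F, E ∈ A → F ∈ A → E = F := by
    intro E F hE hF
    have h1 : {w E, w F} ∈ stk Y A w :=
      (hin _).2 (insert_subset (hw E hE) (singleton_subset_iff.2 (hw F hF)))
    exact h.two h1 hF hE (by simp) (by simp)
  obtain ⟨F, hF, -⟩ := exists_facet h.cx.1
  refine shellable_single hF ?_
  intro G hG
  by_cases h1 : F ∈ A <;> by_cases h2 : G ∈ A
  · exact key3 G F h2 h1
  · exact (key2 G F hG h2 h1).elim
  · exact (key2 F G hF h1 h2).elim
  · exact key G F hG hF h2 h1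

/-- the case of the new vertex of a facet -/
theorem Good.shed_new (h : Good Y A w) {F0 : Finset V} (hF0 : F0 ∈ A)
    (hp : IsPure (stk Y A w))
    (hsh : ∀ F, IsFacet (link (stk Y A w) (w F0)) F →
      ¬ IsFacet (deletion (stk Y A w) (w F0)) F)
    (ih : ∀ (Y' A' : Finset (Finset V)) (w' : Finset V → V), Good Y' A' w' →
      deletion (stk Y A w) (w F0) = stk Y' A' w' → Shellable Y') : Shellable Y := by
  have hpY := h.pure hp
  have hF := h.fac F0 hF0
  have hG : Good (Y.erase F0) (A.erase F0) w := by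
    refine ⟨⟨?_, ?_⟩, ?_, ?_, ?_, ?_⟩
    · exact mem_erase.2 ⟨fun h1 => (h.ne F0 hF0).ne_empty h1.symm, h.cx.1⟩
    · intro s hs t ht
      rw [mem_erase] at hs ⊢
      refine ⟨?_, h.cx.2 _ hs.2 _ ht⟩
      rintro rfl
      exact hs.1 (hF.2 s hs.2 ht)
    · intro F h1
      rw [mem_erase] at h1
      refine ⟨mem_erase.2 ⟨h1.1, (h.fac F h1.2).1⟩, ?_⟩
      intro G h2 h3
      exact (h.fac F h1.2).2 G (mem_of_mem_erase h2) h3
    · intro F h1
      exact h.ne F (mem_of_mem_erase h1)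
    · intro F h1 G h2
      exact h.inj F (mem_of_mem_erase h1) G (mem_of_mem_erase h2)
    · intro F h1 G h2
      exact h.new F (mem_of_mem_erase h1) G (mem_of_mem_erase h2)
  have hdel : deletion (stk Y A w) (w F0) = stk (Y.erase F0) (A.erase F0) w := by
    ext H
    rw [mem_deletion, mem_stk, mem_stk]
    constructor
    · rintro ⟨h1 | ⟨F, hF1, G, hG1, rfl⟩, h2⟩
      · refine Or.inl ⟨mem_erase.2 ⟨fun h3 => h1.2 (h3 ▸ hF0), h1.1⟩, fun h3 => ?_⟩
        exact h1.2 (mem_of_mem_erase h3)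
      · refine Or.inr ⟨F, mem_erase.2 ⟨?_, hF1⟩, G, hG1, rfl⟩
        rintro rfl
        exact h2 (mem_insert_self _ _)
    · rintro (⟨h1, h2⟩ | ⟨F, hF1, G, hG1, rfl⟩)
      · rw [mem_erase] at h1
        refine ⟨Or.inl ⟨h1.2, fun h3 => h2 (mem_erase.2 ⟨h1.1, h3⟩)⟩, h.new F0 hF0 H h1.2⟩
      · rw [mem_erase] at hF1
        refine ⟨Or.inr ⟨F, hF1.2, G, hG1, rfl⟩, ?_⟩
        rw [mem_insert, not_or]
        exact ⟨fun h3 => hF1.1 (h.inj F0 hF0 F hF1.2 h3).symm, h.newsub hF0 hF1.2 hG1⟩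
  have hS := ih _ _ _ hG hdel
  rw [shellable_iff] at hS
  obtain ⟨hpS, l, hl, hm, hsl⟩ := hS
  -- another facet of the same dimension
  obtain ⟨E0, hE0, hE0c⟩ : ∃ E, IsFacet (Y.erase F0) E ∧ E.card = F0.card := by
    obtain ⟨u, hu⟩ := h.ne F0 hF0
    have hcx := h.stk_cx
    have h1 : IsFacet (link (stk Y A w) (w F0)) (F0.erase u) := by
      refine ⟨?_, ?_⟩
      · rw [mem_link hcx]
        refine ⟨h.newsub hF0 hF0 (erase_ssubset hu), ?_⟩
        exact (h.fac_new hF0 hu).1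
      · intro G hG1 hG2
        rw [mem_link hcx] at hG1
        have h2 := (h.fac_new hF0 hu).2 _ hG1.2 (insert_subset_insert _ hG2)
        rw [← erase_insert hG1.1, h2, erase_insert (h.newsub hF0 hF0 (erase_ssubset hu))]
    have h2 := hsh _ h1
    have h3 : F0.erase u ∈ deletion (stk Y A w) (w F0) := by
      rw [mem_deletion]
      refine ⟨?_, h.newsub hF0 hF0 (erase_ssubset hu)⟩
      exact hcx.2 _ (h.fac_new hF0 hu).1 _ (subset_insert _ _)
    have h4 : ∃ H ∈ deletion (stk Y A w) (w F0), F0.erase u ⊆ H ∧ H ≠ F0.erase u := by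
      by_contra hcon
      push Not at hcon
      exact h2 ⟨h3, hcon⟩
    obtain ⟨H, hH, hH1, hH2⟩ := h4
    have hHc : F0.card ≤ H.card := by
      have h5 : F0.erase u ⊂ H := lt_of_le_of_ne hH1 (Ne.symm hH2)
      have h6 := card_lt_card h5
      rw [card_erase_of_mem hu] at h6
      omega
    rw [hdel] at hH
    rcases mem_stk.1 hH with h5 | ⟨F, hF1, G, hG1, rfl⟩
    · obtain ⟨E, hE, hHE⟩ := exists_facet (mem_of_mem_erase h5.1)
      have h6 : E.card = F0.card := hpY E F0 hE hF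
      have h7 : E = H := (eq_of_subset_of_card_le hHE (by omega)).symm
      subst h7
      refine ⟨E, ⟨h5.1, ?_⟩, h6⟩
      intro G hG1 hG2
      exact hE.2 G (mem_of_mem_erase hG1) hG2
    · refine ⟨F, hG.fac F hF1, hpY F F0 (h.fac F (mem_of_mem_erase hF1)) hF⟩
  have hfac : ∀ F, IsFacet Y F ↔ IsFacet (Y.erase F0) F ∨ F = F0 := by
    intro F
    constructor
    · intro h1
      by_cases h2 : F = F0
      · exact Or.inr h2
      · left
        exact ⟨mem_erase.2 ⟨h2, h1.1⟩, fun G hG1 hG2 => h1.2 G (mem_of_mem_erase hG1) hG2⟩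
    · rintro (h1 | rfl)
      · refine ⟨mem_of_mem_erase h1.1, ?_⟩
        intro G hG1 hG2
        by_cases h2 : G = F0
        · exfalso
          subst h2
          have h3 := hpS F E0 h1 hE0
          have h4 : F = G := eq_of_subset_of_card_le hG2 (by omega)
          exact (mem_erase.1 h1.1).1 h4
        · exact h1.2 G (mem_erase.2 ⟨h2, hG1⟩) hG2
      · exact hF
  rw [shellable_iff]
  have hF0l : F0 ∉ l := fun h1 => (mem_erase.1 ((hm F0).1 h1).1).1 rfl
  refine ⟨hpY, l ++ [F0], ?_, ?_, ?_⟩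
  · rw [List.nodup_append]
    refine ⟨hl, by simp, ?_⟩
    intro a ha b hb hab
    rw [List.mem_singleton] at hb
    rw [hab, hb] at ha
    exact hF0l ha
  · intro F
    rw [List.mem_append, List.mem_singleton, hm, hfac]
  · intro l1 F l2 h1 h2
    rcases List.eq_nil_or_concat l2 with h3 | ⟨l3, a, h3⟩
    · subst h3
      have h4 : l = l1 ∧ [F0] = [F] := List.append_inj' h1 rfl
      obtain ⟨rfl, h5⟩ := h4
      have h5 : F0 = F := by simpa using h5
      subst h5
      intro G hG1 hG2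
      obtain ⟨E, hE, hGE⟩ := hG2
      have hne : G ≠ F0 := by
        rintro rfl
        have h6 := (hm E).1 hE
        have h7 := hF.2 E (mem_of_mem_erase h6.1) hGE
        exact (mem_erase.1 h6.1).1 h7
      have hss : G ⊂ F0 := lt_of_le_of_ne hG1 hne
      obtain ⟨u, hu, huG⟩ := exists_of_ssubset hss
      refine ⟨F0.erase u, ?_, erase_subset _ _, ?_, ?_⟩
      · intro x hx
        exact mem_erase.2 ⟨fun h6 => huG (h6 ▸ hx), hG1 hx⟩
      · rw [card_erase_of_mem hu]
        have := card_pos.2 ⟨u, hu⟩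
        omega
      · have h6 : F0.erase u ∈ Y.erase F0 :=
          mem_erase.2 ⟨(erase_ssubset hu).ne, h.cx.2 _ hF.1 _ (erase_subset _ _)⟩
        obtain ⟨E', hE', h7⟩ := exists_facet h6
        exact ⟨E', (hm E').2 hE', h7⟩
    · have h4 : l = l1 ++ F :: l3 := by
        rw [h3, List.concat_eq_append] at h1
        have h5 : l ++ [F0] = (l1 ++ F :: l3) ++ [a] := by rw [h1]; simp
        exact (List.append_inj' h5 rfl).1
      exact hsl l1 F l3 h4 h2

end

end Pool.Agent.V11201.ST
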