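import Pool.Agent.V11201.ST.Main

set_option autoImplicit false
set_option linter.unusedSectionVars false
set_option linter.unusedVariables false
open Finset

namespace Pool.Agent.V11201.ST

variable {V : Type} [DecidableEq V]

/-- the leaves of a list of facets -/
structure Leaf (l : List (Finset V)) (q : Finset V → Prop) (L T : Finset V) : Prop where
  sub : T ⊆ L
  card : T.card + 1 = L.card
  cap : ∀ E ∈ l, E ≠ L → ∀ R, R ⊆ L → R ⊆ E → R ⊆ T
  other : ∀ E ∈ l, ¬ q E → E ≠ L → ¬ T ⊆ E

theorem Leaf.eq {l : List (Finset V)} {q : Finset V → Prop} {L T : Finset V} (h : Leaf l q L T)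
    {E : Finset V} (hE : E ∈ l) (hne : E ≠ L) {R : Finset V} (h1 : R ⊆ L) (h2 : R ⊆ E)
    (h3 : R.card + 1 = L.card) : R = T :=
  eq_of_subset_of_card_le (h.cap E hE hne R h1 h2) (by have := h.card; omega)

/-- a leaf meets an earlier facet, or the second one -/
theorem leaf_meets {l : List (Finset V)} {q : Finset V → Prop} (hl : l.Nodup)
    (hc : ∀ E ∈ l, ∀ F ∈ l, E.card = F.card)
    (hs : ∀ l1 F l2, l = l1 ++ F :: l2 → l1 ≠ [] → ShC l1 F) {L T : Finset V}
    (h : Leaf l q L T) {p1 p2 : List (Finset V)} (hp : l = p1 ++ L :: p2) (hp1 : p1 ≠ []) :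
    ∃ E ∈ p1, q E ∧ T ⊆ E := by
  obtain ⟨E0, hE0⟩ := List.exists_mem_of_ne_nil _ hp1
  obtain ⟨R, -, h2, h3, E, hE, h4⟩ := hs p1 L p2 hp hp1 ∅ (empty_subset _)
    ⟨E0, hE0, empty_subset _⟩
  have hEl : E ∈ l := by rw [hp]; exact List.mem_append_left _ hE
  have hne : E ≠ L := by
    rintro rfl
    rw [hp, List.nodup_append] at hl
    exact hl.2.2 E hE E (by simp) rfl
  have h5 := h.eq hEl hne h2 h4 h3
  subst h5
  refine ⟨E, hE, ?_, h4⟩
  by_contra hq
  exact h.other E hEl hq hne h4

theorem leaf_second {l : List (Finset V)} {q : Finset V → Prop} (hl : l.Nodup)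
    (hc : ∀ E ∈ l, ∀ F ∈ l, E.card = F.card)
    (hs : ∀ l1 F l2, l = l1 ++ F :: l2 → l1 ≠ [] → ShC l1 F) {L T : Finset V}
    (h : Leaf l q L T) {E2 : Finset V} {p3 : List (Finset V)} (hp : l = L :: E2 :: p3) :
    q E2 ∧ T ⊆ E2 := by
  obtain ⟨R, -, h2, h3, E, hE, h4⟩ := hs [L] E2 p3 (by rw [hp]; rfl) (by simp) ∅
    (empty_subset _) ⟨L, by simp, empty_subset _⟩
  rw [List.mem_singleton] at hE
  subst hE
  have hEl : E2 ∈ l := by rw [hp]; simp
  have hLl : E ∈ l := by rw [hp]; simp
  have hne : E2 ≠ E := by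
    rintro rfl
    rw [hp] at hl
    simp at hl
  have h5 := h.eq hEl hne h4 h2 (by rw [h3]; exact hc _ hEl _ hLl)
  subst h5
  refine ⟨?_, h2⟩
  by_contra hq
  exact h.other E2 hEl hq hne h2

theorem leaf_base {l : List (Finset V)} {q : Finset V → Prop} (hl : l.Nodup)
    (hc : ∀ E ∈ l, ∀ F ∈ l, E.card = F.card)
    (hs : ∀ l1 F l2, l = l1 ++ F :: l2 → l1 ≠ [] → ShC l1 F) {L T : Finset V}
    (h : Leaf l q L T) (hL : L ∈ l) {E0 : Finset V} (hE0 : E0 ∈ l) (hne : E0 ≠ L) :
    ∃ E ∈ l, q E ∧ T ⊆ E := by
  obtain ⟨p1, p2, hp⟩ := List.append_of_mem hL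
  by_cases hp1 : p1 = []
  · subst hp1
    rw [List.nil_append] at hp
    cases p2 with
    | nil =>
      rw [hp, List.mem_singleton] at hE0
      exact absurd hE0 hne
    | cons E2 p3 =>
      obtain ⟨h1, h2⟩ := leaf_second hl hc hs h hp
      exact ⟨E2, by rw [hp]; simp, h1, h2⟩
  · obtain ⟨E, hE, h1, h2⟩ := leaf_meets hl hc hs h hp hp1
    exact ⟨E, by rw [hp]; exact List.mem_append_left _ hE, h1, h2⟩

/-- removing the leaves -/
theorem filter_shell {l : List (Finset V)} {q : Finset V → Prop} [DecidablePred q]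
    (hl : l.Nodup) (hc : ∀ E ∈ l, ∀ F ∈ l, E.card = F.card)
    (hs : ∀ l1 F l2, l = l1 ++ F :: l2 → l1 ≠ [] → ShC l1 F)
    (hleaf : ∀ L ∈ l, ¬ q L → ∃ T, Leaf l q L T) :
    ∀ l1 F l2, l.filter (fun E => q E) = l1 ++ F :: l2 → l1 ≠ [] → ShC l1 F := by
  intro l1' F l2' h1 hne
  rw [List.filter_eq_append_iff] at h1
  obtain ⟨l1, l3, hl13, hf1, hf2⟩ := h1
  rw [List.filter_eq_cons_iff] at hf2
  obtain ⟨a, b, hab, ha, hqF, -⟩ := hf2
  -- the part before the facet
  have hdec : l = (l1 ++ a) ++ F :: b := by rw [hl13, hab, List.append_assoc]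
  have hfil : (l1 ++ a).filter (fun E => q E) = l1' := by
    rw [List.filter_append, hf1]
    have : a.filter (fun E => q E) = [] := by
      rw [List.filter_eq_nil_iff]
      exact ha
    rw [this, List.append_nil]
  have hmem : ∀ E, E ∈ l1' ↔ E ∈ l1 ++ a ∧ q E := by
    intro E
    rw [← hfil, List.mem_filter]
    simp
  have hne2 : l1 ++ a ≠ [] := by
    intro h2
    rw [h2] at hfil
    exact hne hfil.symm
  rintro G hG ⟨E, hE, hGE⟩
  obtain ⟨R, h2, h3, h4, E', hE', h5⟩ := hs _ F b hdec hne2 G hG ⟨E, ((hmem E).1 hE).1, hGE⟩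
  by_cases hq : q E'
  · exact ⟨R, h2, h3, h4, E', (hmem E').2 ⟨hE', hq⟩, h5⟩
  · have hE'l : E' ∈ l := by rw [hdec]; exact List.mem_append_left _ hE'
    have hFl : F ∈ l := by rw [hdec]; simp
    have hFne : F ≠ E' := by
      rintro rfl
      rw [hdec, List.nodup_append] at hl
      exact hl.2.2 F hE' F (by simp) rfl
    obtain ⟨T, hT⟩ := hleaf E' hE'l hq
    have hRT : R = T := hT.eq hFl hFne h5 h3 (by rw [h4]; exact hc _ hFl _ hE'l)
    subst hRT
    obtain ⟨p1, p2, hp⟩ := List.append_of_mem hE'
    have hpl : l = p1 ++ E' :: (p2 ++ F :: b) := by rw [hdec, hp]; simp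
    by_cases hp1 : p1 = []
    · subst hp1
      rw [List.nil_append] at hp hpl
      cases p2 with
      | nil =>
        exfalso
        have h6 := (hmem E).1 hE
        rw [hp, List.mem_singleton] at h6
        rw [h6.1] at h6
        exact hq h6.2
      | cons E2 p3 =>
        have hpl2 : l = E' :: E2 :: (p3 ++ F :: b) := by rw [hpl]; rfl
        obtain ⟨h6, h7⟩ := leaf_second hl hc hs hT hpl2
        exact ⟨R, h2, h3, h4, E2, (hmem E2).2 ⟨by rw [hp]; simp, h6⟩, h7⟩
    · obtain ⟨E'', h6, h7, h8⟩ := leaf_meets hl hc hs hT hpl hp1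
      exact ⟨R, h2, h3, h4, E'', (hmem E'').2 ⟨by rw [hp]; exact List.mem_append_left _ h6, h7⟩,
        h8⟩

/-- the facets of a link -/
theorem link_facet {K : Finset (Finset V)} (hK : IsComplex K) {v : V} {H : Finset V} :
    IsFacet (link K v) H ↔ v ∉ H ∧ IsFacet K (insert v H) := by
  constructor
  · rintro ⟨h1, h2⟩
    rw [mem_link hK] at h1
    refine ⟨h1.1, h1.2, ?_⟩
    intro G hG hHG
    have hvG : v ∈ G := hHG (mem_insert_self _ _)
    have h3 : G.erase v ∈ link K v := by
      rw [mem_link hK, insert_erase hvG]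
      exact ⟨by simp, hG⟩
    have h4 : H ⊆ G.erase v := by
      intro x hx
      exact mem_erase.2 ⟨fun h => h1.1 (h ▸ hx), hHG (mem_insert_of_mem hx)⟩
    rw [← h2 _ h3 h4, insert_erase hvG]
  · rintro ⟨h1, h2, h3⟩
    refine ⟨(mem_link hK).2 ⟨h1, h2⟩, ?_⟩
    intro G hG hHG
    rw [mem_link hK] at hG
    have h4 := h3 _ hG.2 (insert_subset_insert _ hHG)
    rw [← erase_insert hG.1, h4, erase_insert h1]

/-- gluing the star of a vertex to the rest -/
theorem glue_shell {Y : Finset (Finset V)} (hY : IsComplex Y) (hp : IsPure Y) {v : V}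
    {l : List (Finset V)} (hl : l.Nodup) (hm : ∀ F, F ∈ l ↔ IsFacet Y F ∧ v ∉ F)
    (hs : ∀ l1 F l2, l = l1 ++ F :: l2 → l1 ≠ [] → ShC l1 F)
    (hc : l ≠ [] → ∀ F, IsFacet Y F → v ∈ F → ∃ E ∈ l, F.erase v ⊆ E)
    (hlk : Shellable (link Y v)) : Shellable Y := by
  rw [shellable_iff] at hlk ⊢
  obtain ⟨-, m, hmn, hmm, hms⟩ := hlk
  have hmv : ∀ H ∈ m, v ∉ H ∧ IsFacet Y (insert v H) := fun H hH =>
    (link_facet hY).1 ((hmm H).1 hH)
  refine ⟨hp, l ++ m.map (insert v), ?_, ?_, ?_⟩
  · rw [List.nodup_append]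
    refine ⟨hl, ?_, ?_⟩
    · apply List.Nodup.map_on _ hmn
      intro a ha b hb hab
      rw [← erase_insert (hmv a ha).1, hab, erase_insert (hmv b hb).1]
    · intro a ha b hb hab
      obtain ⟨H, -, rfl⟩ := List.mem_map.1 hb
      subst hab
      exact ((hm _).1 ha).2 (mem_insert_self _ _)
  · intro F
    rw [List.mem_append, hm, List.mem_map]
    constructor
    · rintro (h | ⟨H, hH, rfl⟩)
      · exact h.1
      · exact (hmv H hH).2
    · intro h
      by_cases hv : v ∈ F
      · right
        refine ⟨F.erase v, ?_, insert_erase hv⟩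
        rw [hmm, link_facet hY, insert_erase hv]
        exact ⟨by simp, h⟩
      · exact Or.inl ⟨h, hv⟩
  · intro l1 F l2 h1 h2
    rw [List.append_eq_append_iff] at h1
    -- the case of the second part
    have second : ∀ m1 H m2, m = m1 ++ H :: m2 → l ++ m1.map (insert v) ≠ [] →
        ShC (l ++ m1.map (insert v)) (insert v H) := by
      intro m1 H m2 hm1 hne
      have hH := hmv H (by rw [hm1]; simp)
      have part : ∀ G, G ⊆ insert v H → (∃ E1 ∈ m1, G ⊆ insert v E1) →
          ∃ R, G ⊆ R ∧ R ⊆ insert v H ∧ R.card + 1 = (insert v H).card ∧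
            ∃ E ∈ l ++ m1.map (insert v), R ⊆ E := by
        rintro G hG ⟨E1, hE1, hGE⟩
        obtain ⟨R, h3, h4, h5, E2, hE2, h6⟩ := hms m1 H m2 hm1
          (List.ne_nil_of_mem hE1) (G.erase v)
          (by
            intro x hx
            rcases mem_insert.1 (hG (mem_of_mem_erase hx)) with h | h
            · exact absurd h (ne_of_mem_erase hx)
            · exact h)
          ⟨E1, hE1, by
            intro x hx
            rcases mem_insert.1 (hGE (mem_of_mem_erase hx)) with h | h
            · exact absurd h (ne_of_mem_erase hx)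
            · exact h⟩
        refine ⟨insert v R, ?_, insert_subset_insert _ h4, ?_, insert v E2,
          List.mem_append_right _ (List.mem_map.2 ⟨E2, hE2, rfl⟩), insert_subset_insert _ h6⟩
        · intro x hx
          by_cases hxv : x = v
          · rw [hxv]; exact mem_insert_self _ _
          · exact mem_insert_of_mem (h3 (mem_erase.2 ⟨hxv, hx⟩))
        · rw [card_insert_of_notMem hH.1, card_insert_of_notMem (fun h => hH.1 (h4 h)), h5]
      rintro G hG ⟨E, hE, hGE⟩
      rcases List.mem_append.1 hE with hE | hE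
      · -- the face avoids the vertex
        have hvG : v ∉ G := fun h => ((hm E).1 hE).2 (hGE h)
        obtain ⟨E', hE', h3⟩ := hc (List.ne_nil_of_mem hE) _ hH.2 (mem_insert_self _ _)
        rw [erase_insert hH.1] at h3
        refine ⟨H, ?_, subset_insert _ _, ?_, E', List.mem_append_left _ hE', h3⟩
        · intro x hx
          rcases mem_insert.1 (hG hx) with h | h
          · exact absurd (h ▸ hx) hvG
          · exact h
        · rw [card_insert_of_notMem hH.1]
      · obtain ⟨E1, hE1, rfl⟩ := List.mem_map.1 hE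
        exact part G hG ⟨E1, hE1, hGE⟩
    rcases h1 with ⟨a, h3, h4⟩ | ⟨a, h3, h4⟩
    · -- the first part is an initial segment of `l1`
      rw [List.map_eq_append_iff] at h4
      obtain ⟨m1, m3, h5, h6, h7⟩ := h4
      rw [List.map_eq_cons_iff] at h7
      obtain ⟨H, m2, h8, h9, -⟩ := h7
      rw [h3, ← h6] at h2 ⊢
      rw [← h9]
      exact second m1 H m2 (by rw [h5, h8]) h2
    · cases a with
      | nil =>
        rw [List.nil_append] at h4
        rw [List.append_nil] at h3
        have h7 := h4.symm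
        rw [List.map_eq_cons_iff] at h7
        obtain ⟨H, m2, h8, h9, -⟩ := h7
        have := second [] H m2 (by rw [h8]; rfl) (by rw [h3]; simpa using h2)
        rw [List.map_nil, List.append_nil, h3, h9] at this
        exact this
      | cons b t =>
        rw [List.cons_append, List.cons.injEq] at h4
        obtain ⟨rfl, -⟩ := h4
        exact hs l1 F t h3 h2

section
variable {Y A : Finset (Finset V)} {w : Finset V → V}

/-- the deletion with the leaves -/
def del1 (Y A : Finset (Finset V)) (w : Finset V → V) (v : V) : Finset (Finset V) :=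
  deletion Y v ∪ (A.filter (fun F => v ∈ F)).biUnion
    (fun F => (F.erase v).powerset.image (insert (w F)))

theorem mem_del1 {v : V} {H : Finset V} : H ∈ del1 Y A w v ↔ (H ∈ Y ∧ v ∉ H) ∨
    ∃ F ∈ A, v ∈ F ∧ ∃ G, G ⊆ F.erase v ∧ H = insert (w F) G := by
  unfold del1
  rw [mem_union, mem_deletion, mem_biUnion]
  constructor
  · rintro (h | ⟨F, hF, h⟩)
    · exact Or.inl h
    · rw [mem_filter] at hF
      obtain ⟨G, hG, rfl⟩ := mem_image.1 h
      exact Or.inr ⟨F, hF.1, hF.2, G, mem_powerset.1 hG, rfl⟩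
  · rintro (h | ⟨F, hF, hv, G, hG, rfl⟩)
    · exact Or.inl h
    · exact Or.inr ⟨F, mem_filter.2 ⟨hF, hv⟩, mem_image.2 ⟨G, mem_powerset.2 hG, rfl⟩⟩

/-- the case of an old vertex -/
theorem Good.shed_old (h : Good Y A w) {v : V} (hv : {v} ∈ stk Y A w) (hvn : ∀ F ∈ A, v ≠ w F)
    (hp : IsPure (stk Y A w))
    (hsh : ∀ F, IsFacet (link (stk Y A w) v) F → ¬ IsFacet (deletion (stk Y A w) v) F)
    (ih1 : ∀ (Y' A' : Finset (Finset V)) (w' : Finset V → V), Good Y' A' w' →
      link (stk Y A w) v = stk Y' A' w' → Shellable Y')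
    (ih2 : ∀ (Y' A' : Finset (Finset V)) (w' : Finset V → V), Good Y' A' w' →
      deletion (stk Y A w) v = stk Y' A' w' → Shellable Y') : Shellable Y := by
  have hcx := h.stk_cx
  have hpY := h.pure hp
  have hvY := h.old hv (fun F hF hw => hvn F hF (mem_singleton.1 hw).symm)
  -- the link
  have hlk : Shellable (link Y v) := by
    apply ih1 _ ((A.filter (fun F => v ∈ F)).image (fun F => F.erase v))
      (fun H => w (insert v H))
    · refine ⟨link_complex h.cx hvY.1, ?_, ?_, ?_, ?_⟩
      · intro F hF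
        obtain ⟨E, hE, rfl⟩ := mem_image.1 hF
        rw [mem_filter] at hE
        rw [link_facet h.cx, insert_erase hE.2]
        exact ⟨by simp, h.fac E hE.1⟩
      · intro F hF
        obtain ⟨E, hE, rfl⟩ := mem_image.1 hF
        rw [mem_filter] at hE
        rw [nonempty_iff_ne_empty]
        intro h1
        have h2 : E = {v} := by
          rw [← insert_erase hE.2, h1]
          simp
        exact hvY.2 (h2 ▸ hE.1)
      · intro F hF G hG hFG
        obtain ⟨E, hE, rfl⟩ := mem_image.1 hF
        obtain ⟨E', hE', rfl⟩ := mem_image.1 hG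
        rw [mem_filter] at hE hE'
        simp only [insert_erase hE.2, insert_erase hE'.2] at hFG
        rw [h.inj E hE.1 E' hE'.1 hFG]
      · intro F hF G hG
        obtain ⟨E, hE, rfl⟩ := mem_image.1 hF
        rw [mem_filter] at hE
        rw [mem_link h.cx] at hG
        simp only [insert_erase hE.2]
        exact fun h1 => h.new E hE.1 _ hG.2 (mem_insert_of_mem h1)
    · ext H
      rw [mem_link hcx, mem_stk, mem_stk]
      constructor
      · rintro ⟨h1, h2 | ⟨F, hF, G, hG, h2⟩⟩
        · left
          refine ⟨(mem_link h.cx).2 ⟨h1, h2.1⟩, ?_⟩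
          intro h3
          obtain ⟨E, hE, h4⟩ := mem_image.1 h3
          rw [mem_filter] at hE
          apply h2.2
          rw [← h4, insert_erase hE.2]
          exact hE.1
        · right
          have hvG : v ∈ G := by
            have : v ∈ insert (w F) G := h2 ▸ mem_insert_self _ _
            rcases mem_insert.1 this with h3 | h3
            · exact absurd h3 (hvn F hF)
            · exact h3
          have hvF := hG.1 hvG
          refine ⟨F.erase v, mem_image.2 ⟨F, mem_filter.2 ⟨hF, hvF⟩, rfl⟩, G.erase v, ?_, ?_⟩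
          · refine ⟨erase_subset_erase _ hG.1, fun h3 => hG.2 ?_⟩
            intro x hx
            by_cases hxv : x = v
            · rw [hxv]; exact hvG
            · exact mem_of_mem_erase (h3 (mem_erase.2 ⟨hxv, hx⟩))
          · rw [insert_erase hvF, ← erase_insert h1, h2, erase_insert_of_ne (hvn F hF).symm]
      · rintro (⟨h1, h2⟩ | ⟨F', hF', G, hG, rfl⟩)
        · rw [mem_link h.cx] at h1
          refine ⟨h1.1, Or.inl ⟨h1.2, fun h3 => h2 ?_⟩⟩
          exact mem_image.2 ⟨insert v H, mem_filter.2 ⟨h3, mem_insert_self _ _⟩,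
            erase_insert h1.1⟩
        · obtain ⟨F, hF, rfl⟩ := mem_image.1 hF'
          rw [mem_filter] at hF
          rw [insert_erase hF.2]
          have hvG : v ∉ G := fun h3 => by
            have := hG.1 h3
            simp at this
          refine ⟨?_, Or.inr ⟨F, hF.1, insert v G, ?_, insert_comm _ _ _⟩⟩
          · rw [mem_insert, not_or]
            exact ⟨hvn F hF.1, hvG⟩
          · refine ⟨insert_subset hF.2 (hG.1.trans (erase_subset _ _)), fun h3 => hG.2 ?_⟩
            intro x hx
            rw [mem_erase] at hx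
            rcases mem_insert.1 (h3 hx.2) with h4 | h4
            · exact absurd h4 hx.1
            · exact h4
  -- the deletion
  have hY1 : Shellable (del1 Y A w v) := by
    apply ih2 _ (A.filter (fun F => v ∉ F)) w
    · refine ⟨⟨?_, ?_⟩, ?_, ?_, ?_, ?_⟩
      · rw [mem_del1]
        exact Or.inl ⟨h.cx.1, notMem_empty _⟩
      · intro s hs t ht
        rw [mem_del1] at hs ⊢
        rcases hs with ⟨h1, h2⟩ | ⟨F, hF, hvF, G, hG, rfl⟩
        · exact Or.inl ⟨h.cx.2 _ h1 _ ht, fun h3 => h2 (ht h3)⟩
        · by_cases hw : w F ∈ t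
          · right
            refine ⟨F, hF, hvF, t.erase (w F), ?_, (insert_erase hw).symm⟩
            intro x hx
            rw [mem_erase] at hx
            rcases mem_insert.1 (ht hx.2) with h3 | h3
            · exact absurd h3 hx.1
            · exact hG h3
          · left
            have h3 : t ⊆ F.erase v := by
              intro x hx
              rcases mem_insert.1 (ht hx) with h4 | h4
              · exact absurd (h4 ▸ hx) hw
              · exact hG h4
            exact ⟨h.cx.2 _ (h.fac F hF).1 _ (h3.trans (erase_subset _ _)),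
              fun h4 => by simpa using h3 h4⟩
      · intro F hF
        rw [mem_filter] at hF
        refine ⟨mem_del1.2 (Or.inl ⟨(h.fac F hF.1).1, hF.2⟩), ?_⟩
        intro G hG hFG
        rcases mem_del1.1 hG with h1 | ⟨F', hF', hvF', G', hG', rfl⟩
        · exact (h.fac F hF.1).2 G h1.1 hFG
        · exfalso
          have h2 : F ⊆ G' := by
            intro x hx
            rcases mem_insert.1 (hFG hx) with h4 | h4
            · exact absurd (h4 ▸ hx) (h.new F' hF' F (h.fac F hF.1).1)
            · exact h4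
          have h3 := (h.fac F hF.1).2 F' (h.fac F' hF').1
            (h2.trans (hG'.trans (erase_subset _ _)))
          exact hF.2 (h3 ▸ hvF')
      · intro F hF
        exact h.ne F (mem_filter.1 hF).1
      · intro F hF G hG
        exact h.inj F (mem_filter.1 hF).1 G (mem_filter.1 hG).1
      · intro F hF G hG
        rw [mem_filter] at hF
        rcases mem_del1.1 hG with h1 | ⟨F', hF', hvF', G', hG', rfl⟩
        · exact h.new F hF.1 G h1.1
        · rw [mem_insert, not_or]
          refine ⟨fun h2 => hF.2 (h.inj F hF.1 F' hF' h2 ▸ hvF'), fun h2 => ?_⟩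
          exact h.new F hF.1 F' (h.fac F' hF').1 (mem_of_mem_erase (hG' h2))
    · ext H
      rw [mem_deletion, mem_stk, mem_stk]
      constructor
      · rintro ⟨h1 | ⟨F, hF, G, hG, rfl⟩, h2⟩
        · exact Or.inl ⟨mem_del1.2 (Or.inl ⟨h1.1, h2⟩), fun h3 => h1.2 (mem_filter.1 h3).1⟩
        · rw [mem_insert, not_or] at h2
          by_cases hvF : v ∈ F
          · left
            refine ⟨mem_del1.2 (Or.inr ⟨F, hF, hvF, G, ?_, rfl⟩), ?_⟩
            · intro x hx
              exact mem_erase.2 ⟨fun h3 => h2.2 (h3 ▸ hx), hG.1 hx⟩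
            · intro h3
              rw [mem_filter] at h3
              exact h.new F hF _ (h.fac _ h3.1).1 (mem_insert_self _ _)
          · exact Or.inr ⟨F, mem_filter.2 ⟨hF, hvF⟩, G, hG, rfl⟩
      · rintro (⟨h1, h2⟩ | ⟨F, hF, G, hG, rfl⟩)
        · rcases mem_del1.1 h1 with h3 | ⟨F, hF, hvF, G, hG, rfl⟩
          · exact ⟨Or.inl ⟨h3.1, fun h4 => h2 (mem_filter.2 ⟨h4, h3.2⟩)⟩, h3.2⟩
          · refine ⟨Or.inr ⟨F, hF, G, lt_of_le_of_lt hG (erase_ssubset hvF), rfl⟩, ?_⟩
            rw [mem_insert, not_or]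
            exact ⟨hvn F hF, fun h4 => by simpa using hG h4⟩
        · rw [mem_filter] at hF
          refine ⟨Or.inr ⟨F, hF.1, G, hG, rfl⟩, ?_⟩
          rw [mem_insert, not_or]
          exact ⟨hvn F hF.1, fun h4 => hF.2 (hG.1 h4)⟩
  rw [shellable_iff] at hY1
  obtain ⟨hp1, l, hl, hm, hs⟩ := hY1
  -- the facets of the deletion with the leaves
  have fold : ∀ F, IsFacet Y F → v ∉ F → IsFacet (del1 Y A w v) F := by
    intro F hF hvF
    refine ⟨mem_del1.2 (Or.inl ⟨hF.1, hvF⟩), ?_⟩
    intro G hG hFG
    rcases mem_del1.1 hG with h1 | ⟨F', hF', hvF', G', hG', rfl⟩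
    · exact hF.2 G h1.1 hFG
    · exfalso
      have h2 : F ⊆ G' := by
        intro x hx
        rcases mem_insert.1 (hFG hx) with h4 | h4
        · exact absurd (h4 ▸ hx) (h.new F' hF' F hF.1)
        · exact h4
      have h3 := hF.2 F' (h.fac F' hF').1 (h2.trans (hG'.trans (erase_subset _ _)))
      exact hvF (h3 ▸ hvF')
  have fnew : ∀ F ∈ A, v ∈ F → IsFacet (del1 Y A w v) (insert (w F) (F.erase v)) := by
    intro F hF hvF
    refine ⟨mem_del1.2 (Or.inr ⟨F, hF, hvF, _, Subset.refl _, rfl⟩), ?_⟩
    intro G hG hFG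
    have hwG : w F ∈ G := hFG (mem_insert_self _ _)
    rcases mem_del1.1 hG with h1 | ⟨F', hF', hvF', G', hG', rfl⟩
    · exact absurd hwG (h.new F hF G h1.1)
    · rcases mem_insert.1 hwG with h2 | h2
      · have := h.inj F hF F' hF' h2
        subst this
        apply Subset.antisymm _ hFG
        exact insert_subset_insert _ hG'
      · exact absurd (mem_of_mem_erase (hG' h2)) (h.new F hF F' (h.fac F' hF').1)
  by_cases hZ : ∃ E0, IsFacet Y E0 ∧ v ∉ E0
  · obtain ⟨E0, hE0, hvE0⟩ := hZ
    have hE0l := (hm E0).2 (fold E0 hE0 hvE0)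
    have hcl : ∀ E ∈ l, ∀ F ∈ l, E.card = F.card := fun E hE F hF =>
      hp1 E F ((hm E).1 hE) ((hm F).1 hF)
    -- members of the list
    have hmem : ∀ F ∈ l, (IsFacet Y F ∧ v ∉ F) ∨
        ∃ E ∈ A, v ∈ E ∧ F = insert (w E) (E.erase v) := by
      intro F hF
      have hFf := (hm F).1 hF
      rcases mem_del1.1 hFf.1 with h1 | ⟨F', hF', hvF', G', hG', rfl⟩
      · left
        refine ⟨?_, h1.2⟩
        obtain ⟨E, hE, hFE⟩ := exists_facet h1.1
        have h2 : E.card = F.card := (hpY E E0 hE hE0).trans (hcl E0 hE0l F hF)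
        have h3 : F = E := eq_of_subset_of_card_le hFE (by omega)
        rw [h3]; exact hE
      · right
        refine ⟨F', hF', hvF', ?_⟩
        exact ((hFf.2 _ (fnew F' hF' hvF').1 (insert_subset_insert _ hG'))).symm
    have hdl : ∀ E ∈ A, ∀ F ∈ l, w E ∈ F → F = insert (w E) (E.erase v) := by
      intro E hE F hF hw
      rcases hmem F hF with h1 | ⟨E', hE', hvE', rfl⟩
      · exact absurd hw (h.new E hE F h1.1.1)
      · rcases mem_insert.1 hw with h2 | h2
        · rw [h.inj E hE E' hE' h2]
        · exact absurd (mem_of_mem_erase h2) (h.new E hE E' (h.fac E' hE').1)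
    have hleaf : ∀ L ∈ l, ¬ (IsFacet Y L ∧ v ∉ L) → ∀ E ∈ A, v ∈ E →
        L = insert (w E) (E.erase v) →
        Leaf l (fun F => IsFacet Y F ∧ v ∉ F) L (E.erase v) := by
      intro L hL hnL E hE hvE hLE
      have hwE : w E ∉ E := h.new E hE E (h.fac E hE).1
      refine ⟨?_, ?_, ?_, ?_⟩
      · rw [hLE]; exact subset_insert _ _
      · rw [hLE, card_insert_of_notMem (fun h1 => hwE (mem_of_mem_erase h1))]
      · intro F hF hFL R hRL hRF x hx
        have h1 := hRL hx
        rw [hLE] at h1
        rcases mem_insert.1 h1 with h2 | h2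
        · exfalso
          apply hFL
          rw [hLE]
          exact hdl E hE F hF (h2 ▸ hRF hx)
        · exact h2
      · intro F hF hqF hFL hsub
        rcases hmem F hF with h1 | ⟨E', hE', hvE', h1⟩
        · exact hqF h1
        · have h2 : E.erase v ⊆ E'.erase v := by
            intro x hx
            have h3 := hsub hx
            rw [h1] at h3
            rcases mem_insert.1 h3 with h4 | h4
            · exact absurd (h4 ▸ mem_of_mem_erase hx) (h.new E' hE' E (h.fac E hE).1)
            · exact h4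
          have h3 : E ⊆ E' := by
            intro x hx
            by_cases hxv : x = v
            · rw [hxv]; exact hvE'
            · exact mem_of_mem_erase (h2 (mem_erase.2 ⟨hxv, hx⟩))
          have h4 := (h.fac E hE).2 E' (h.fac E' hE').1 h3
          apply hFL
          rw [h1, hLE, h4]
    classical
    refine glue_shell h.cx hpY (l := l.filter (fun F => IsFacet Y F ∧ v ∉ F)) ?_ ?_ ?_ ?_ hlk
    · exact hl.filter _
    · intro F
      rw [List.mem_filter]
      simp only [decide_eq_true_eq]
      exact ⟨fun h1 => h1.2, fun h1 => ⟨(hm F).2 (fold F h1.1 h1.2), h1⟩⟩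
    · apply filter_shell hl hcl hs
      intro L hL hnL
      rcases hmem L hL with h1 | ⟨E, hE, hvE, h1⟩
      · exact absurd h1 hnL
      · exact ⟨_, hleaf L hL hnL E hE hvE h1⟩
    · intro _ F hF hvF
      have goal : ∃ E, (IsFacet Y E ∧ v ∉ E) ∧ F.erase v ⊆ E := by
        by_cases hFA : F ∈ A
        · have hL := (hm _).2 (fnew F hFA hvF)
          have hnL : ¬ (IsFacet Y (insert (w F) (F.erase v)) ∧
              v ∉ insert (w F) (F.erase v)) := by
            rintro ⟨h1, -⟩
            exact h.new F hFA _ h1.1 (mem_insert_self _ _)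
          have hlf := hleaf _ hL hnL F hFA hvF rfl
          have hne : E0 ≠ insert (w F) (F.erase v) := by
            rintro rfl
            exact hnL ⟨hE0, hvE0⟩
          obtain ⟨E, -, h1, h2⟩ := leaf_base hl hcl hs hlf hL hE0l hne
          exact ⟨E, h1, h2⟩
        · have h1 : IsFacet (link (stk Y A w) v) (F.erase v) := by
            rw [link_facet hcx, insert_erase hvF]
            exact ⟨by simp, h.fac_old hF hFA⟩
          have h2 := hsh _ h1
          have h3 : F.erase v ∈ deletion (stk Y A w) v := by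
            rw [mem_deletion]
            refine ⟨hcx.2 _ (h.fac_old hF hFA).1 _ (erase_subset _ _), by simp⟩
          have h4 : ∃ H ∈ deletion (stk Y A w) v, F.erase v ⊆ H ∧ H ≠ F.erase v := by
            by_contra hcon
            push Not at hcon
            exact h2 ⟨h3, hcon⟩
          obtain ⟨H, hH, hH1, hH2⟩ := h4
          rw [mem_deletion] at hH
          have hHc : F.card ≤ H.card := by
            have h5 : F.erase v ⊂ H := lt_of_le_of_ne hH1 (Ne.symm hH2)
            have h6 := card_lt_card h5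
            rw [card_erase_of_mem hvF] at h6
            omega
          rcases mem_stk.1 hH.1 with h5 | ⟨F', hF', G, hG, rfl⟩
          · obtain ⟨E, hE, hHE⟩ := exists_facet h5.1
            have h6 : E.card = F.card := hpY E F hE hF
            have h7 : H = E := eq_of_subset_of_card_le hHE (by omega)
            subst h7
            exact ⟨H, ⟨hE, hH.2⟩, hH1⟩
          · have h6 : F'.card = F.card := hpY F' F (h.fac F' hF') hF
            have h7 : F.erase v ⊆ G := by
              intro x hx
              rcases mem_insert.1 (hH1 hx) with h8 | h8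
              · exact absurd (h8 ▸ mem_of_mem_erase hx) (h.new F' hF' F hF.1)
              · exact h8
            refine ⟨F', ⟨h.fac F' hF', ?_⟩, h7.trans hG.1⟩
            intro hvF'
            have h8 : F ⊆ F' := by
              intro x hx
              by_cases hxv : x = v
              · rw [hxv]; exact hvF'
              · exact hG.1 (h7 (mem_erase.2 ⟨hxv, hx⟩))
            have h9 := hF.2 F' (h.fac F' hF').1 h8
            exact hFA (h9 ▸ hF')
      obtain ⟨E, h1, h2⟩ := goal
      refine ⟨E, ?_, h2⟩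
      rw [List.mem_filter]
      exact ⟨(hm E).2 (fold E h1.1 h1.2), by simpa using h1⟩
  · push Not at hZ
    refine glue_shell h.cx hpY (l := []) (by simp) ?_ ?_ ?_ hlk
    · intro F
      constructor
      · intro h1; simp at h1
      · rintro ⟨h1, h2⟩
        exact absurd (hZ F h1) h2
    · intro l1 F l2 h1
      exfalso
      have := congrArg List.length h1
      simp at this
    · intro h1
      exact absurd rfl h1

end

/-- stacking and vertex-decomposability -/
theorem stk_main (X : Finset (Finset V)) (hX : VertexDecomposable X) :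
    ∀ (Y A : Finset (Finset V)) (w : Finset V → V), Good Y A w → X = stk Y A w →
      Shellable Y := by
  induction hX with
  | simplex s =>
    intro Y A w hG hs
    exact hG.simplex hs
  | shed K v hp hv _ _ hsh ih1 ih2 =>
    intro Y A w hG hs
    subst hs
    by_cases hvn : ∀ F ∈ A, v ≠ w F
    · exact hG.shed_old hv hvn hp hsh ih1 ih2
    · push Not at hvn
      obtain ⟨F0, hF0, rfl⟩ := hvn
      exact hG.shed_new hF0 hp hsh ih2

end Pool.Agent.V11201.ST
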